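import Pool.Agent.N483.KM.StmY
import Pool.Agent.N438.KM.LWC

/-!
# Project KM, part PIS: isotropic log-concave weights decay
-/

set_option autoImplicit false

namespace Pool.Agent.N603.KM

open MeasureTheory Set Filter Topology
open scoped ENNReal InnerProductSpace
open Pool.Agent.R754.KG (E)
open Pool.Agent.Y506.PV (LCn)
open Pool.Agent.Y506.RG (EW VW Adm VW_shift)
open Pool.Agent.N483.KM

/-- change of variables for the midpoint with a fixed point -/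
lemma half_int (k : ℕ) (G : E k → ℝ) (b : E k) :
    ∫ x, G ((1 / 2 : ℝ) • x + b) = 2 ^ k * ∫ y, G y := by
  have h1 := Measure.integral_comp_smul (volume : Measure (E k)) (fun y => G (y + b)) (1 / 2 : ℝ)
  rw [h1]
  have h2 : Module.finrank ℝ (E k) = k := by simp
  rw [h2, integral_add_right_eq_self, smul_eq_mul]
  congr 1
  rw [one_div, inv_pow, inv_inv, abs_of_pos (by positivity)]

lemma half_integrable (k : ℕ) (G : E k → ℝ) (hG : Integrable G) (b : E k) :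
    Integrable fun x => G ((1 / 2 : ℝ) • x + b) := by
  have h1 : Integrable fun y => G (y + b) := hG.comp_add_right b
  exact h1.comp_smul (by norm_num : (1 / 2 : ℝ) ≠ 0)

lemma lin_int {k : ℕ} {w : E k → ℝ} (h : Adm w) (θ : E k) :
    Integrable (fun x => ⟪x, θ⟫_ℝ * w x) ∧ Integrable (fun x => ⟪x, θ⟫_ℝ ^ 2 * w x) := by
  have hm : Measurable fun x : E k => ⟪x, θ⟫_ℝ := by
    have : Continuous fun x : E k => ⟪x, θ⟫_ℝ := by fun_prop
    exact this.measurable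
  have hb : ∀ x : E k, |⟪x, θ⟫_ℝ| ≤ ‖x‖ * ‖θ‖ := fun x => abs_real_inner_le_norm x θ
  constructor
  · refine h.of_bd _ hm ‖θ‖ fun x => (hb x).trans ?_
    nlinarith [sq_nonneg (‖x‖ - 1 / 2), norm_nonneg x, norm_nonneg θ,
      mul_nonneg (norm_nonneg θ) (sq_nonneg (‖x‖ - 1 / 2))]
  · refine h.of_bd _ (hm.pow_const 2) (‖θ‖ ^ 2) fun x => ?_
    rw [abs_of_nonneg (sq_nonneg _), ← sq_abs]
    have h1 := pow_le_pow_left₀ (abs_nonneg _) (hb x) 2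
    nlinarith [sq_nonneg ‖θ‖]

/-- a point at which the weight is not small is near the mean -/
lemma near_mean {k : ℕ} {w : E k → ℝ} (h : Adm w) (hlc : LCn w) (hpos : ∀ x, 0 < w x)
    (z : E k) (a : ℝ) (ha : 0 < a) (hz : ∀ x, a ^ 2 * w x ≤ w z) (θ : E k)
    (hθ : VW w (fun x => ⟪x, θ⟫_ℝ) = 1) :
    (⟪z, θ⟫_ℝ - EW w (fun x => ⟪x, θ⟫_ℝ)) ^ 2 ≤ 4 * (2 ^ k / a) := by
  obtain ⟨i1, i2⟩ := lin_int h θ
  set m := EW w (fun x => ⟪x, θ⟫_ℝ) with hm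
  have hW := h.pos
  -- pointwise inequality
  have hpt : ∀ x, a * w x ≤ w ((1 / 2 : ℝ) • x + (1 / 2 : ℝ) • z) := by
    intro x
    have h1 := hlc x z (1 / 2) (by norm_num) (by norm_num)
    have h2 : (1 : ℝ) - 1 / 2 = 1 / 2 := by norm_num
    rw [h2] at h1
    refine le_trans ?_ h1
    have h3 : a * w x ^ (1 / 2 : ℝ) ≤ w z ^ (1 / 2 : ℝ) := by
      have h4 := Real.rpow_le_rpow (by have := hpos x; positivity) (hz x)
        (by norm_num : (0 : ℝ) ≤ 1 / 2)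
      rw [Real.mul_rpow (by positivity) (hpos x).le, ← Real.sqrt_eq_rpow (a ^ 2),
        Real.sqrt_sq ha.le] at h4
      exact h4
    have h5 : w x = w x ^ (1 / 2 : ℝ) * w x ^ (1 / 2 : ℝ) := by
      rw [← Real.rpow_add (hpos x)]
      norm_num
    calc a * w x = w x ^ (1 / 2 : ℝ) * (a * w x ^ (1 / 2 : ℝ)) := by
          nth_rewrite 1 [h5]
          ring
      _ ≤ w x ^ (1 / 2 : ℝ) * w z ^ (1 / 2 : ℝ) :=
          mul_le_mul_of_nonneg_left h3 (Real.rpow_nonneg (hpos x).le _)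
  -- second moments
  have s1 := VW_shift h (fun x => ⟪x, θ⟫_ℝ) i1 i2 m
  have s2 := VW_shift h (fun x => ⟪x, θ⟫_ℝ) i1 i2 (2 * m - ⟪z, θ⟫_ℝ)
  rw [hθ] at s1 s2
  rw [← hm] at s1 s2
  have hint : ∀ c : ℝ, Integrable (fun x => (⟪x, θ⟫_ℝ - c) ^ 2 * w x) := by
    intro c
    have := (i2.add (i1.const_mul (-(2 * c)))).add (h.one.const_mul (c ^ 2))
    refine this.congr (Eventually.of_forall fun x => ?_)
    simp only [Pi.add_apply]
    ring
  have e1 : ∫ x, (⟪x, θ⟫_ℝ - m) ^ 2 * w x = ∫ x, w x := by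
    have h1 : EW w (fun x => (⟪x, θ⟫_ℝ - m) ^ 2) = 1 := by rw [s1]; ring
    unfold EW at h1
    rw [div_eq_one_iff_eq hW.ne'] at h1
    exact h1
  have e2 : ∫ x, (⟪x, θ⟫_ℝ - (2 * m - ⟪z, θ⟫_ℝ)) ^ 2 * w x =
      (1 + (⟪z, θ⟫_ℝ - m) ^ 2) * ∫ x, w x := by
    have h1 : EW w (fun x => (⟪x, θ⟫_ℝ - (2 * m - ⟪z, θ⟫_ℝ)) ^ 2) =
        1 + (⟪z, θ⟫_ℝ - m) ^ 2 := by rw [s2]; ring
    unfold EW at h1
    rwa [div_eq_iff hW.ne'] at h1
  set Q : E k → ℝ := fun y => (⟪y, θ⟫_ℝ - m) ^ 2 * w y with hQ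
  have hQint : Integrable Q := hint m
  have h6 := half_int k Q ((1 / 2 : ℝ) • z)
  have h7 := half_integrable k Q hQint ((1 / 2 : ℝ) • z)
  have h8 : ∫ x, a / 4 * ((⟪x, θ⟫_ℝ - (2 * m - ⟪z, θ⟫_ℝ)) ^ 2 * w x) ≤
      ∫ x, Q ((1 / 2 : ℝ) • x + (1 / 2 : ℝ) • z) := by
    refine integral_mono ((hint _).const_mul _) h7 fun x => ?_
    simp only [hQ]
    have h9 : ⟪(1 / 2 : ℝ) • x + (1 / 2 : ℝ) • z, θ⟫_ℝ = 1 / 2 * ⟪x, θ⟫_ℝ + 1 / 2 * ⟪z, θ⟫_ℝ := by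
      rw [inner_add_left, real_inner_smul_left, real_inner_smul_left]
    rw [h9]
    have h10 := mul_le_mul_of_nonneg_left (hpt x)
      (sq_nonneg (1 / 2 * ⟪x, θ⟫_ℝ + 1 / 2 * ⟪z, θ⟫_ℝ - m))
    refine le_trans (le_of_eq ?_) h10
    ring
  rw [integral_const_mul, e2, h6] at h8
  have h11 : ∫ y, Q y = ∫ x, w x := e1
  rw [h11] at h8
  have h12 : a / 4 * (1 + (⟪z, θ⟫_ℝ - m) ^ 2) ≤ 2 ^ k := by
    refine le_of_mul_le_mul_right ?_ hW
    rw [mul_assoc]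
    exact h8
  have h13 : 4 * ((2 : ℝ) ^ k / a) = 4 * 2 ^ k / a := by ring
  rw [h13, le_div_iff₀ ha]
  nlinarith

theorem t_PIS : S_PIS := by
  intro k
  obtain ⟨c, hc⟩ : ∃ c : ℝ, c = 4 * (2 ^ k * Real.exp k) := ⟨_, rfl⟩
  have hc0 : 0 ≤ c := by rw [hc]; positivity
  refine ⟨2 * √c + 1, by positivity, fun w hw hiso => ?_⟩
  -- the mode
  have hLW := Pool.Agent.N438.KM.t_LWC k w hw.adm hw.lc hw.cont.upperSemicontinuous
  obtain ⟨x0, -, hx0⟩ := (hLW.comp (w 0) (hw.pos 0)).exists_isMaxOn ⟨0, le_refl (w 0)⟩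
    hw.cont.continuousOn
  have hmax : ∀ x, w x ≤ w x0 := by
    intro x
    by_cases hx : w 0 ≤ w x
    · exact hx0 hx
    · have h1 : w 0 ≤ w x0 := hx0 (le_refl (w 0))
      linarith
  refine ⟨x0, fun x1 hx1 => ?_⟩
  by_contra hcon
  push Not at hcon
  have hd : 0 < ‖x1 - x0‖ := lt_of_lt_of_le (by positivity) hx1
  set θ : E k := ‖x1 - x0‖⁻¹ • (x1 - x0) with hθ
  have hθ1 : ‖θ‖ = 1 := by
    rw [hθ, norm_smul, norm_inv, norm_norm, inv_mul_cancel₀ hd.ne']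
  have hV : VW w (fun x => ⟪x, θ⟫_ℝ) = 1 := by rw [hiso θ, hθ1]; norm_num
  have a0 := near_mean hw.adm hw.lc hw.pos x0 1 one_pos (fun x => by
    rw [one_pow, one_mul]; exact hmax x) θ hV
  have a1 := near_mean hw.adm hw.lc hw.pos x1 (Real.exp (-k)) (Real.exp_pos _) (fun x => by
    have h1 : Real.exp (-(k : ℝ)) ^ 2 = Real.exp (-2 * k) := by
      rw [← Real.exp_nat_mul]
      congr 1
      push_cast
      ring
    rw [h1]
    exact (mul_le_mul_of_nonneg_left (hmax x) (Real.exp_pos _).le).trans hcon.le) θ hV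
  set m := EW w (fun x => ⟪x, θ⟫_ℝ) with hm
  have hk1 : (1 : ℝ) ≤ Real.exp k := Real.one_le_exp (Nat.cast_nonneg k)
  have b0 : |⟪x0, θ⟫_ℝ - m| ≤ √c := by
    refine Real.abs_le_sqrt (a0.trans ?_)
    rw [hc, div_one]
    have : (0 : ℝ) < 2 ^ k := by positivity
    nlinarith
  have b1 : |⟪x1, θ⟫_ℝ - m| ≤ √c := by
    refine Real.abs_le_sqrt (a1.trans (le_of_eq ?_))
    rw [hc, Real.exp_neg, div_inv_eq_mul]
  have h2 : ⟪x1, θ⟫_ℝ - ⟪x0, θ⟫_ℝ = ‖x1 - x0‖ := by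
    rw [← inner_sub_left, hθ, real_inner_smul_right, real_inner_self_eq_norm_sq]
    field_simp
  rw [abs_le] at b0 b1
  linarith [b0.1, b0.2, b1.1, b1.2]

end Pool.Agent.N603.KM
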